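import Mathlib

set_option autoImplicit false

namespace Pool.Agent.Work.MP_91a774_al

open Nat.Partrec (Code)

/-- `R m k`: the program with index `m / 2` halts on input `0` within `k` steps. -/
def R (m k : ℕ) : Bool :=
  (Nat.Partrec.Code.evaln k (Denumerable.ofNat Code (m / 2)) 0).isSome

/-- one step of the zigzag shift of `ℕ`. -/
def up (k : ℕ) : ℕ := if k % 2 = 0 then k + 2 else if k = 1 then 0 else k - 2

/-- one step of the inverse of the zigzag shift of `ℕ`. -/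
def dn (k : ℕ) : ℕ := if k % 2 = 1 then k + 2 else if k = 0 then 1 else k - 2

lemma dn_up (k : ℕ) : dn (up k) = k := by
  by_cases h0 : k % 2 = 0
  · have h1 : up k = k + 2 := by simp [up, h0]
    rw [h1, dn, if_neg (by omega), if_neg (by omega)]
    omega
  · by_cases h2 : k = 1
    · subst h2; rfl
    · have h1 : up k = k - 2 := by simp [up, h0, h2]
      rw [h1, dn, if_pos (by omega)]
      omega

lemma up_dn (k : ℕ) : up (dn k) = k := by
  by_cases h0 : k % 2 = 1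
  · have h1 : dn k = k + 2 := by simp [dn, h0]
    rw [h1, up, if_neg (by omega), if_neg (by omega)]
    omega
  · by_cases h2 : k = 0
    · subst h2; rfl
    · have h1 : dn k = k - 2 := by simp [dn, h0, h2]
      rw [h1, up, if_pos (by omega)]
      omega

/-- The zigzag shift on each line. -/
def tau : Equiv.Perm (ℕ × ℕ) where
  toFun p := (p.1, up p.2)
  invFun p := (p.1, dn p.2)
  left_inv p := by simp [dn_up]
  right_inv p := by simp [up_dn]

/-- Line zero is glued to the line `c + 1` at the halting times of the program `c`. -/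
def rhoF (p : ℕ × ℕ) : ℕ × ℕ :=
  if p.1 = 0 then
    (if R (Nat.unpair p.2).1 (Nat.unpair p.2).2 = true then
      ((Nat.unpair p.2).1 + 1, (Nat.unpair p.2).2) else p)
  else (if R (p.1 - 1) p.2 = true then (0, Nat.pair (p.1 - 1) p.2) else p)

lemma rhoF_invol (p : ℕ × ℕ) : rhoF (rhoF p) = p := by
  obtain ⟨l, k⟩ := p
  by_cases hl : l = 0
  · subst hl
    by_cases hR : R (Nat.unpair k).1 (Nat.unpair k).2 = true
    · simp [rhoF, hR]
    · simp [rhoF, hR]
  · by_cases hR : R (l - 1) k = true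
    · simp [rhoF, hR, hl]
      omega
    · simp [rhoF, hR, hl]

def rho : Equiv.Perm (ℕ × ℕ) where
  toFun := rhoF
  invFun := rhoF
  left_inv := rhoF_invol
  right_inv := rhoF_invol

/-- `(0, n)` is swapped with `(n + 1, 0)`. -/
def muF (p : ℕ × ℕ) : ℕ × ℕ :=
  if p.1 = 0 then (p.2 + 1, 0) else if p.2 = 0 then (0, p.1 - 1) else p

lemma muF_invol (p : ℕ × ℕ) : muF (muF p) = p := by
  obtain ⟨l, k⟩ := p
  by_cases hl : l = 0
  · subst hl
    simp [muF]
  · by_cases hk : k = 0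
    · subst hk
      simp [muF, hl]
      omega
    · simp [muF, hl, hk]

def mu : Equiv.Perm (ℕ × ℕ) where
  toFun := muF
  invFun := muF
  left_inv := muF_invol
  right_inv := muF_invol

/-- points: positions with a lamp state. -/
abbrev Pt : Type := (ℕ × ℕ) × Bool

/-- Lift of a permutation of positions to points. -/
def lift : Equiv.Perm (ℕ × ℕ) →* Equiv.Perm Pt where
  toFun p := p.prodCongr (Equiv.refl Bool)
  map_one' := by ext <;> simp
  map_mul' p q := by ext <;> simp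

@[simp] lemma lift_apply (p : Equiv.Perm (ℕ × ℕ)) (x : Pt) : lift p x = (p x.1, x.2) := rfl

/-- Toggle the lamp at position `i`. -/
def toggle (i : ℕ × ℕ) : Equiv.Perm Pt where
  toFun x := if x.1 = i then (x.1, !x.2) else x
  invFun x := if x.1 = i then (x.1, !x.2) else x
  left_inv x := by obtain ⟨a, b⟩ := x; by_cases h : a = i <;> simp [h]
  right_inv x := by obtain ⟨a, b⟩ := x; by_cases h : a = i <;> simp [h]

lemma toggle_apply (i : ℕ × ℕ) (x : Pt) : toggle i x = if x.1 = i then (x.1, !x.2) else x := rfl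

lemma toggle_inv (i : ℕ × ℕ) : (toggle i)⁻¹ = toggle i := rfl

lemma conj_toggle (p : Equiv.Perm (ℕ × ℕ)) (i : ℕ × ℕ) :
    lift p * toggle i * (lift p)⁻¹ = toggle (p i) := by
  have h : lift p * toggle i = toggle (p i) * lift p := by
    ext x
    · simp only [Equiv.Perm.coe_mul, Function.comp_apply, toggle_apply, lift_apply]
      by_cases h : x.1 = i
      · simp [h]
      · simp [h]
    · simp only [Equiv.Perm.coe_mul, Function.comp_apply, toggle_apply, lift_apply]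
      by_cases h : x.1 = i
      · simp [h]
      · simp [h]
    · simp only [Equiv.Perm.coe_mul, Function.comp_apply, toggle_apply, lift_apply]
      by_cases h : x.1 = i
      · simp [h]
      · simp [h]
  rw [h]
  group

/-- The ambient group. -/
abbrev Amb : Type := Equiv.Perm Pt × FreeGroup (Fin 3) × Multiplicative ℤ

/-- The eight generators. -/
def gen : Fin 8 → Amb :=
  ![(toggle (0, 0), 1, 1),
    (lift tau, FreeGroup.of 0, 1),
    (lift tau⁻¹, (FreeGroup.of 0)⁻¹, 1),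
    (lift rho, FreeGroup.of 1, 1),
    (lift rho⁻¹, (FreeGroup.of 1)⁻¹, 1),
    (lift mu, FreeGroup.of 2, Multiplicative.ofAdd 1),
    (lift mu⁻¹, (FreeGroup.of 2)⁻¹, Multiplicative.ofAdd 1),
    (1, 1, Multiplicative.ofAdd 1)]

/-- The homomorphism giving the action on positions. -/
def posHom : FreeGroup (Fin 3) →* Equiv.Perm (ℕ × ℕ) := FreeGroup.lift ![tau, rho, mu]

/-- Value of a word in the letters `X i` and their inverses. -/
def wordVal {G : Type} [Group G] {k : ℕ} (X : Fin k → G) (w : List (Fin k × Bool)) : G :=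
  (w.map fun p => if p.2 then X p.1 else (X p.1)⁻¹).prod

@[simp] lemma wordVal_nil {G : Type} [Group G] {k : ℕ} (X : Fin k → G) : wordVal X [] = 1 := rfl

@[simp] lemma wordVal_cons {G : Type} [Group G] {k : ℕ} (X : Fin k → G) (p : Fin k × Bool)
    (w : List (Fin k × Bool)) :
    wordVal X (p :: w) = (if p.2 then X p.1 else (X p.1)⁻¹) * wordVal X w := rfl

lemma wordVal_append {G : Type} [Group G] {k : ℕ} (X : Fin k → G) (u v : List (Fin k × Bool)) :
    wordVal X (u ++ v) = wordVal X u * wordVal X v := by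
  simp [wordVal]

lemma wordVal_map {G H : Type} [Group G] [Group H] (f : G →* H) {k : ℕ} (X : Fin k → G)
    (w : List (Fin k × Bool)) : f (wordVal X w) = wordVal (fun i => f (X i)) w := by
  induction w with
  | nil => simp
  | cons p w ih =>
    rw [wordVal_cons, wordVal_cons, map_mul, ih]
    split_ifs <;> simp

/-- The submonoid. -/
def PM : Submonoid Amb := Submonoid.closure (Set.range gen)

/-- The subgroup. -/
def GG : Subgroup Amb := Subgroup.closure (Set.range gen)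

lemma gen_mem_PM (j : Fin 8) : gen j ∈ PM := Submonoid.subset_closure ⟨j, rfl⟩

lemma PM_le_GG : ∀ g ∈ PM, g ∈ GG := by
  intro g hg
  have : PM ≤ GG.toSubmonoid := by
    unfold PM
    rw [Submonoid.closure_le]
    exact Subgroup.subset_closure
  exact this hg

/-- central generator -/
def zz : Amb := (1, 1, Multiplicative.ofAdd 1)

lemma zz_mem : zz ∈ PM := gen_mem_PM 7

lemma zz_pow_mem (n : ℕ) : zz ^ n ∈ PM := PM.pow_mem zz_mem n

lemma zz_comm (g : Amb) : g * zz = zz * g := by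
  obtain ⟨a, b, c⟩ := g
  simp [zz, mul_comm]

lemma zz_pow_comm (g : Amb) (n : ℕ) : g * zz ^ n = zz ^ n * g := by
  have : Commute g zz := zz_comm g
  exact this.pow_right n

/-- Generators whose inverse is in the monoid up to a central factor. -/
lemma inv_gen_mem (j : Fin 8) : ∃ n : ℕ, (gen j)⁻¹ * zz ^ n ∈ PM := by
  fin_cases j
  · refine ⟨0, ?_⟩
    have : (gen 0)⁻¹ * zz ^ 0 = gen 0 := by simp [gen, toggle_inv]
    show (gen 0)⁻¹ * zz ^ 0 ∈ PM
    rw [this]; exact gen_mem_PM 0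
  · refine ⟨0, ?_⟩
    have : (gen 1)⁻¹ * zz ^ 0 = gen 2 := by simp [gen]
    show (gen 1)⁻¹ * zz ^ 0 ∈ PM
    rw [this]; exact gen_mem_PM 2
  · refine ⟨0, ?_⟩
    have : (gen 2)⁻¹ * zz ^ 0 = gen 1 := by simp [gen]
    show (gen 2)⁻¹ * zz ^ 0 ∈ PM
    rw [this]; exact gen_mem_PM 1
  · refine ⟨0, ?_⟩
    have : (gen 3)⁻¹ * zz ^ 0 = gen 4 := by simp [gen]
    show (gen 3)⁻¹ * zz ^ 0 ∈ PM
    rw [this]; exact gen_mem_PM 4
  · refine ⟨0, ?_⟩
    have : (gen 4)⁻¹ * zz ^ 0 = gen 3 := by simp [gen]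
    show (gen 4)⁻¹ * zz ^ 0 ∈ PM
    rw [this]; exact gen_mem_PM 3
  · refine ⟨2, ?_⟩
    have : (gen 5)⁻¹ * zz ^ 2 = gen 6 := by
      simp [gen, zz, pow_two, ← ofAdd_neg, ← ofAdd_add]
    show (gen 5)⁻¹ * zz ^ 2 ∈ PM
    rw [this]; exact gen_mem_PM 6
  · refine ⟨2, ?_⟩
    have : (gen 6)⁻¹ * zz ^ 2 = gen 5 := by
      simp [gen, zz, pow_two, ← ofAdd_neg, ← ofAdd_add]
    show (gen 6)⁻¹ * zz ^ 2 ∈ PM
    rw [this]; exact gen_mem_PM 5
  · refine ⟨1, ?_⟩
    have : (gen 7)⁻¹ * zz ^ 1 = 1 := by simp [gen, zz]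
    show (gen 7)⁻¹ * zz ^ 1 ∈ PM
    rw [this]; exact PM.one_mem

lemma GG_mem (g : Amb) (hg : g ∈ GG) :
    (∃ n : ℕ, g * zz ^ n ∈ PM) ∧ (∃ n : ℕ, g⁻¹ * zz ^ n ∈ PM) := by
  unfold GG at hg
  induction hg using Subgroup.closure_induction with
  | mem x hx =>
    obtain ⟨j, rfl⟩ := hx
    exact ⟨⟨0, by simpa using gen_mem_PM j⟩, inv_gen_mem j⟩
  | one => exact ⟨⟨0, by simp⟩, ⟨0, by simp⟩⟩
  | mul x y _ _ hx hy =>
    obtain ⟨⟨a, ha⟩, ⟨b, hb⟩⟩ := hx
    obtain ⟨⟨c, hc⟩, ⟨d, hd⟩⟩ := hy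
    refine ⟨⟨a + c, ?_⟩, ⟨d + b, ?_⟩⟩
    · have : x * y * zz ^ (a + c) = (x * zz ^ a) * (y * zz ^ c) := by
        rw [pow_add, mul_assoc x y, ← mul_assoc y, zz_pow_comm y a]
        simp only [mul_assoc]
      rw [this]; exact PM.mul_mem ha hc
    · have : (x * y)⁻¹ * zz ^ (d + b) = (y⁻¹ * zz ^ d) * (x⁻¹ * zz ^ b) := by
        rw [mul_inv_rev, pow_add, mul_assoc y⁻¹ x⁻¹, ← mul_assoc x⁻¹, zz_pow_comm x⁻¹ d]
        simp only [mul_assoc]
      rw [this]; exact PM.mul_mem hd hb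
  | inv x _ hx =>
    obtain ⟨h1, h2⟩ := hx
    exact ⟨h2, by simpa using h1⟩

/-- right reversibility in the ambient group -/
lemma right_rev (a b : Amb) (ha : a ∈ PM) (hb : b ∈ PM) :
    ∃ c ∈ PM, ∃ d ∈ PM, a * c = b * d := by
  obtain ⟨_, ⟨m, hm⟩⟩ := GG_mem a (PM_le_GG a ha)
  obtain ⟨_, ⟨n, hn⟩⟩ := GG_mem b (PM_le_GG b hb)
  refine ⟨a⁻¹ * zz ^ m * zz ^ n, PM.mul_mem hm (zz_pow_mem n), b⁻¹ * zz ^ n * zz ^ m,
    PM.mul_mem hn (zz_pow_mem m), ?_⟩
  rw [← mul_assoc, ← mul_assoc, mul_inv_cancel, one_mul, ← mul_assoc, ← mul_assoc,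
    mul_inv_cancel, one_mul, ← pow_add, ← pow_add, add_comm]

/-- left reversibility in the ambient group -/
lemma left_rev (a b : Amb) (ha : a ∈ PM) (hb : b ∈ PM) :
    ∃ c ∈ PM, ∃ d ∈ PM, c * a = d * b := by
  obtain ⟨_, ⟨m, hm⟩⟩ := GG_mem a (PM_le_GG a ha)
  obtain ⟨_, ⟨n, hn⟩⟩ := GG_mem b (PM_le_GG b hb)
  rw [zz_pow_comm] at hm hn
  refine ⟨zz ^ n * (zz ^ m * a⁻¹), PM.mul_mem (zz_pow_mem n) hm, zz ^ m * (zz ^ n * b⁻¹),
    PM.mul_mem (zz_pow_mem m) hn, ?_⟩
  rw [mul_assoc, inv_mul_cancel_right, mul_assoc, inv_mul_cancel_right, ← pow_add, ← pow_add,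
    add_comm]

lemma GG_quot (g : Amb) (hg : g ∈ GG) : ∃ p ∈ PM, ∃ q ∈ PM, g = p * q⁻¹ := by
  obtain ⟨⟨n, hn⟩, _⟩ := GG_mem g hg
  exact ⟨g * zz ^ n, hn, zz ^ n, zz_pow_mem n, by group⟩

end Pool.Agent.Work.MP_91a774_al
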