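import Mathlib
import Pool.Agent.Work.MP_91a774_al.Perms

set_option autoImplicit false

namespace Pool.Agent.Work.MP_91a774_al

/-- permutation of a signed letter -/
def sperm (x : Fin 8 × Bool) : Equiv.Perm Pt := if x.2 then (gen x.1).1 else ((gen x.1).1)⁻¹

/-- forward action of a word on a point -/
def weval (w : List (Fin 8 × Bool)) (p : Pt) : Pt := w.foldr (fun x q => sperm x q) p

/-- action of the inverse of a word on a point -/
def wback (w : List (Fin 8 × Bool)) (p : Pt) : Pt :=
  w.foldl (fun q x => sperm (x.1, !x.2) q) p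

lemma sperm_not (x : Fin 8 × Bool) : sperm (x.1, !x.2) = (sperm x)⁻¹ := by
  obtain ⟨j, b⟩ := x
  cases b <;> simp [sperm]

lemma wordVal_fst (w : List (Fin 8 × Bool)) (p : Pt) : (wordVal gen w).1 p = weval w p := by
  induction w with
  | nil => rfl
  | cons x w ih =>
    rw [wordVal_cons]
    show _ = sperm x (weval w p)
    rw [← ih]
    obtain ⟨j, b⟩ := x
    cases b <;> simp [sperm]

lemma wordVal_fst_inv (w : List (Fin 8 × Bool)) (p : Pt) :
    ((wordVal gen w).1)⁻¹ p = wback w p := by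
  induction w generalizing p with
  | nil => rfl
  | cons x w ih =>
    rw [wordVal_cons]
    show _ = wback w (sperm (x.1, !x.2) p)
    rw [← ih, sperm_not]
    obtain ⟨j, b⟩ := x
    cases b <;> simp [sperm]

/-- letters of the free group component -/
def flet (x : Fin 8 × Bool) : List (Fin 3 × Bool) :=
  if x.1 = 1 then [(0, x.2)] else if x.1 = 2 then [(0, !x.2)] else
  if x.1 = 3 then [(1, x.2)] else if x.1 = 4 then [(1, !x.2)] else
  if x.1 = 5 then [(2, x.2)] else if x.1 = 6 then [(2, !x.2)] else []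

lemma flet_val (x : Fin 8 × Bool) :
    (if x.2 then gen x.1 else (gen x.1)⁻¹).2.1 = FreeGroup.mk (flet x) := by
  obtain ⟨j, b⟩ := x
  cases b <;> fin_cases j <;> simp [gen, flet, FreeGroup.of] <;> rfl

lemma wordVal_snd (w : List (Fin 8 × Bool)) :
    (wordVal gen w).2.1 = FreeGroup.mk (w.flatMap flet) := by
  induction w with
  | nil => rfl
  | cons x w ih =>
    rw [wordVal_cons, List.flatMap_cons, ← FreeGroup.mul_mk, ← ih, ← flet_val]
    rfl

/-- positive and negative degree of a letter -/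
def pd (x : Fin 8 × Bool) : ℕ := if x.2 = true ∧ 5 ≤ x.1.val then 1 else 0
def nd (x : Fin 8 × Bool) : ℕ := if x.2 = false ∧ 5 ≤ x.1.val then 1 else 0

lemma deg_val (x : Fin 8 × Bool) :
    Multiplicative.toAdd (if x.2 then gen x.1 else (gen x.1)⁻¹).2.2 = (pd x : ℤ) - nd x := by
  obtain ⟨j, b⟩ := x
  cases b <;> fin_cases j <;> simp [gen, pd, nd]

def sumOf (f : Fin 8 × Bool → ℕ) (w : List (Fin 8 × Bool)) : ℕ :=
  w.foldr (fun x s => f x + s) 0

lemma wordVal_deg (w : List (Fin 8 × Bool)) :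
    Multiplicative.toAdd (wordVal gen w).2.2 = (sumOf pd w : ℤ) - sumOf nd w := by
  induction w with
  | nil => rfl
  | cons x w ih =>
    have h1 : (wordVal gen (x :: w)).2.2 =
      (if x.2 then gen x.1 else (gen x.1)⁻¹).2.2 * (wordVal gen w).2.2 := rfl
    have h2 : sumOf pd (x :: w) = pd x + sumOf pd w := rfl
    have h3 : sumOf nd (x :: w) = nd x + sumOf nd w := rfl
    rw [h1, toAdd_mul, ih, deg_val, h2, h3]
    push_cast
    ring

lemma gen_pos (j : Fin 8) (p : Pt) : ((gen j).1 p).1 = posHom (gen j).2.1 p.1 := by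
  fin_cases j
  · simp [gen, toggle_apply]
    split_ifs <;> rfl
  all_goals first
    | (simp [gen, posHom]; done)
    | (simp [gen, posHom]; rfl)

lemma letter_pos (x : Fin 8 × Bool) (p : Pt) :
    (sperm x p).1 = posHom (if x.2 then gen x.1 else (gen x.1)⁻¹).2.1 p.1 := by
  obtain ⟨j, b⟩ := x
  cases b
  · have h := gen_pos j (((gen j).1)⁻¹ p)
    simp only [sperm, Prod.snd_inv, Prod.fst_inv, map_inv, Bool.false_eq_true, if_false]
    rw [Equiv.Perm.eq_inv_iff_eq, ← h]
    simp
  · simpa [sperm] using gen_pos j p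

lemma weval_pos (w : List (Fin 8 × Bool)) (p : Pt) :
    (weval w p).1 = posHom (wordVal gen w).2.1 p.1 := by
  induction w with
  | nil => simp [weval]
  | cons x w ih =>
    have h1 : (wordVal gen (x :: w)).2.1 =
      (if x.2 then gen x.1 else (gen x.1)⁻¹).2.1 * (wordVal gen w).2.1 := rfl
    have h2 : weval (x :: w) p = sperm x (weval w p) := rfl
    rw [h1, h2, letter_pos, ih, map_mul]
    rfl

lemma letter_snd (x : Fin 8 × Bool) (p : Pt) (h : p.1 ≠ (0, 0)) : (sperm x p).2 = p.2 := by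
  obtain ⟨j, b⟩ := x
  cases b
  · fin_cases j
    · simp [sperm, gen, toggle_inv, toggle_apply, h]
    all_goals first
      | (simp [sperm, gen, ← map_inv]; done)
      | (simp [sperm, gen, ← map_inv]; rfl)
  · fin_cases j
    · simp [sperm, gen, toggle_apply, h]
    all_goals first
      | (simp [sperm, gen]; done)
      | (simp [sperm, gen]; rfl)

lemma weval_snd (w : List (Fin 8 × Bool)) (p : Pt)
    (h : ∀ v, v <:+ w → posHom (wordVal gen v).2.1 p.1 ≠ (0, 0)) : (weval w p).2 = p.2 := by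
  induction w with
  | nil => rfl
  | cons x w ih =>
    have h2 : weval (x :: w) p = sperm x (weval w p) := rfl
    rw [h2, letter_snd, ih]
    · intro v hv
      exact h v (hv.trans (List.suffix_cons x w))
    · rw [weval_pos]
      exact h w (List.suffix_cons x w)

/-- The word problem algorithm. -/
def test (w : List (Fin 8 × Bool)) : Prop :=
  FreeGroup.reduce (w.flatMap flet) = [] ∧ sumOf pd w = sumOf nd w ∧
    ∀ n < w.length + 1, (weval w (wback (w.drop n) ((0, 0), false)) =
      wback (w.drop n) ((0, 0), false) ∧ weval w (wback (w.drop n) ((0, 0), true)) =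
      wback (w.drop n) ((0, 0), true))

lemma wordVal_eq_one_iff (w : List (Fin 8 × Bool)) : wordVal gen w = 1 ↔ test w := by
  constructor
  · intro h
    refine ⟨?_, ?_, ?_⟩
    · have h1 := wordVal_snd w
      rw [h] at h1
      have h2 : FreeGroup.mk (w.flatMap flet) = (1 : FreeGroup (Fin 3)) := h1.symm
      have h3 := congrArg FreeGroup.toWord h2
      rwa [FreeGroup.toWord_mk, FreeGroup.toWord_one] at h3
    · have h1 := wordVal_deg w
      rw [h] at h1
      have h2 : Multiplicative.toAdd (1 : Amb).2.2 = 0 := rfl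
      rw [h2] at h1
      omega
    · intro n _
      have h1 : ∀ p, weval w p = p := by
        intro p
        rw [← wordVal_fst, h]
        rfl
      exact ⟨h1 _, h1 _⟩
  · rintro ⟨h1, h2, h3⟩
    have hf : (wordVal gen w).2.1 = 1 := by
      rw [wordVal_snd, ← FreeGroup.toWord_eq_nil_iff, FreeGroup.toWord_mk, h1]
    have hd : (wordVal gen w).2.2 = 1 := by
      apply Multiplicative.toAdd.injective
      rw [wordVal_deg, h2]
      simp
    have hp : (wordVal gen w).1 = 1 := by
      ext1 p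
      rw [wordVal_fst]
      show weval w p = p
      by_contra hne
      have hpos : (weval w p).1 = p.1 := by
        rw [weval_pos, hf, map_one]; rfl
      have hex : ∃ v, v <:+ w ∧ posHom (wordVal gen v).2.1 p.1 = (0, 0) := by
        by_contra hcon
        push Not at hcon
        exact hne (Prod.ext hpos (weval_snd w p hcon))
      obtain ⟨v, hv, hv0⟩ := hex
      have hv1 : (weval v p).1 = (0, 0) := by rw [weval_pos, hv0]
      have hv2 : wback v (weval v p) = p := by
        rw [← wordVal_fst, ← wordVal_fst_inv]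
        simp
      obtain ⟨n, hn, hn'⟩ : ∃ n, n < w.length + 1 ∧ w.drop n = v := by
        obtain ⟨u, hu⟩ := hv
        refine ⟨u.length, ?_, ?_⟩
        · have h9 := congrArg List.length hu
          rw [List.length_append] at h9
          omega
        · rw [← hu]; simp
      have h4 := h3 n hn
      rw [hn'] at h4
      have h5 : weval v p = ((0, 0), (weval v p).2) := Prod.ext hv1 rfl
      cases hb : (weval v p).2
      · rw [hb] at h5
        rw [← h5, hv2] at h4
        exact hne h4.1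
      · rw [hb] at h5
        rw [← h5, hv2] at h4
        exact hne h4.2
    exact Prod.ext hp (Prod.ext hf hd)

/-- Positions on line zero or on the line of a halting program. -/
def Eset : Set (ℕ × ℕ) := {i | i.1 = 0 ∨ ∃ k, R (i.1 - 1) k = true}

def Inv (g : Equiv.Perm Pt) : Prop := ∀ p : Pt, p.1 ∉ Eset → (g p).1 ∉ Eset ∧ (g p).2 = p.2

lemma rho_fix (i : ℕ × ℕ) (hi : i ∉ Eset) : rhoF i = i := by
  unfold Eset at hi
  have hi : ¬ (i.1 = 0 ∨ ∃ k, R (i.1 - 1) k = true) := hi
  rw [not_or, not_exists] at hi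
  obtain ⟨h1, h2⟩ := hi
  unfold rhoF
  rw [if_neg h1, if_neg (h2 _)]

lemma Inv_mul (g h : Equiv.Perm Pt) (hg : Inv g) (hh : Inv h) : Inv (g * h) := by
  intro p hp
  obtain ⟨h1, h2⟩ := hh p hp
  obtain ⟨h3, h4⟩ := hg (h p) h1
  exact ⟨h3, h4.trans h2⟩

lemma PM_inv (g : Amb) (hg : g ∈ PM) :
    0 ≤ Multiplicative.toAdd g.2.2 ∧ (Multiplicative.toAdd g.2.2 = 0 → Inv g.1) := by
  unfold PM at hg
  induction hg using Submonoid.closure_induction with
  | mem x hx =>
    obtain ⟨j, rfl⟩ := hx
    have hzero : ((0 : ℕ), (0 : ℕ)) ∈ Eset := Or.inl rfl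
    fin_cases j
    · refine ⟨le_rfl, fun _ p hp => ?_⟩
      have hne : p.1 ≠ (0, 0) := by
        intro h; rw [h] at hp; exact hp hzero
      have h1 : toggle (0, 0) p = p := by rw [toggle_apply, if_neg hne]
      show (toggle (0, 0) p).1 ∉ Eset ∧ (toggle (0, 0) p).2 = p.2
      rw [h1]; exact ⟨hp, rfl⟩
    · refine ⟨le_rfl, fun _ p hp => ⟨?_, rfl⟩⟩
      exact hp
    · refine ⟨le_rfl, fun _ p hp => ⟨?_, rfl⟩⟩
      exact hp
    · refine ⟨le_rfl, fun _ p hp => ⟨?_, rfl⟩⟩
      show rhoF p.1 ∉ Eset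
      rw [rho_fix p.1 hp]; exact hp
    · refine ⟨le_rfl, fun _ p hp => ⟨?_, rfl⟩⟩
      show rhoF p.1 ∉ Eset
      rw [rho_fix p.1 hp]; exact hp
    · refine ⟨zero_le_one, fun h => ?_⟩
      exact absurd h one_ne_zero
    · refine ⟨zero_le_one, fun h => ?_⟩
      exact absurd h one_ne_zero
    · refine ⟨zero_le_one, fun h => ?_⟩
      exact absurd h one_ne_zero
  | one => exact ⟨le_rfl, fun _ p hp => ⟨hp, rfl⟩⟩
  | mul x y _ _ hx hy =>
    have h1 : Multiplicative.toAdd (x * y).2.2 =
      Multiplicative.toAdd x.2.2 + Multiplicative.toAdd y.2.2 := rfl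
    rw [h1]
    refine ⟨by have := hx.1; have := hy.1; omega, fun h => ?_⟩
    have h2 : Multiplicative.toAdd x.2.2 = 0 := by have := hx.1; have := hy.1; omega
    have h3 : Multiplicative.toAdd y.2.2 = 0 := by have := hx.1; have := hy.1; omega
    exact Inv_mul x.1 y.1 (hx.2 h2) (hy.2 h3)

/-- Positions reachable from the origin by invertible elements of the monoid. -/
def Reach (i : ℕ × ℕ) : Prop :=
  ∃ u : Amb, u ∈ PM ∧ u⁻¹ ∈ PM ∧ u.2.2 = 1 ∧ ∃ A : Equiv.Perm (ℕ × ℕ), u.1 = lift A ∧
    A (0, 0) = i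

lemma reach_zero : Reach (0, 0) :=
  ⟨1, PM.one_mem, by simp, rfl, 1, by simp, rfl⟩

lemma reach_step (i : ℕ × ℕ) (h : Reach i) (v : Amb) (hv : v ∈ PM) (hv' : v⁻¹ ∈ PM)
    (hd : v.2.2 = 1) (B : Equiv.Perm (ℕ × ℕ)) (hB : v.1 = lift B) : Reach (B i) := by
  obtain ⟨u, hu, hu', hud, A, hA, hAi⟩ := h
  refine ⟨v * u, PM.mul_mem hv hu, ?_, ?_, B * A, ?_, ?_⟩
  · rw [mul_inv_rev]; exact PM.mul_mem hu' hv'
  · show v.2.2 * u.2.2 = 1
    rw [hd, hud, one_mul]
  · show v.1 * u.1 = lift (B * A)
    rw [hB, hA, map_mul]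
  · rw [← hAi]; rfl

lemma inv1 : (gen 1)⁻¹ = gen 2 := by simp [gen]
lemma inv2 : (gen 2)⁻¹ = gen 1 := by simp [gen]
lemma inv3 : (gen 3)⁻¹ = gen 4 := by simp [gen]

lemma reach_up (l k : ℕ) (h : Reach (l, k)) : Reach (l, up k) :=
  reach_step (l, k) h (gen 1) (gen_mem_PM 1) (by rw [inv1]; exact gen_mem_PM 2) rfl tau rfl

lemma reach_dn (l k : ℕ) (h : Reach (l, k)) : Reach (l, dn k) :=
  reach_step (l, k) h (gen 2) (gen_mem_PM 2) (by rw [inv2]; exact gen_mem_PM 1) rfl tau⁻¹ rfl

lemma reach_rho (i : ℕ × ℕ) (h : Reach i) : Reach (rhoF i) :=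
  reach_step i h (gen 3) (gen_mem_PM 3) (by rw [inv3]; exact gen_mem_PM 4) rfl rho rfl

lemma reach_line (m : ℕ) : Reach (0, m) := by
  induction m using Nat.strong_induction_on with
  | _ m ih =>
    rcases Nat.lt_or_ge m 2 with hm | hm
    · rcases Nat.lt_or_ge m 1 with h0 | h0
      · have : m = 0 := by omega
        subst this; exact reach_zero
      · have : m = 1 := by omega
        subst this; exact reach_dn 0 0 reach_zero
    · have h1 := ih (m - 2) (by omega)
      by_cases h2 : m % 2 = 0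
      · have h3 := reach_up 0 (m - 2) h1
        have h4 : up (m - 2) = m := by
          rw [up, if_pos (by omega)]; omega
        rwa [h4] at h3
      · have h3 := reach_dn 0 (m - 2) h1
        have h4 : dn (m - 2) = m := by
          rw [dn, if_pos (by omega)]; omega
        rwa [h4] at h3

lemma reach_back (l : ℕ) : ∀ k, Reach (l, k) → Reach (l, 0) := by
  intro k
  induction k using Nat.strong_induction_on with
  | _ k ih =>
    intro h
    by_cases h0 : k = 0
    · subst h0; exact h
    · by_cases h2 : k % 2 = 0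
      · have h3 := reach_dn l k h
        have h4 : dn k = k - 2 := by rw [dn, if_neg (by omega), if_neg h0]
        rw [h4] at h3
        exact ih (k - 2) (by omega) h3
      · have h3 := reach_up l k h
        by_cases h1 : k = 1
        · subst h1; exact h3
        · have h4 : up k = k - 2 := by rw [up, if_neg h2, if_neg h1]
          rw [h4] at h3
          exact ih (k - 2) (by omega) h3

lemma reach_halt (m k : ℕ) (h : R m k = true) : Reach (m + 1, 0) := by
  apply reach_back (m + 1) k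
  have h1 := reach_rho _ (reach_line (Nat.pair m k))
  have h2 : rhoF (0, Nat.pair m k) = (m + 1, k) := by
    simp [rhoF, h]
  rwa [h2] at h1

lemma toggle_mem (i : ℕ × ℕ) (h : Reach i) : ((toggle i, 1, 1) : Amb) ∈ PM := by
  obtain ⟨u, hu, hu', hud, A, hA, hAi⟩ := h
  have h1 : u * gen 0 * u⁻¹ ∈ PM := PM.mul_mem (PM.mul_mem hu (gen_mem_PM 0)) hu'
  have h2 : u * gen 0 * u⁻¹ = ((toggle i, 1, 1) : Amb) := by
    refine Prod.ext ?_ (Prod.ext ?_ ?_)
    · show u.1 * toggle (0, 0) * (u.1)⁻¹ = toggle i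
      rw [hA, conj_toggle, hAi]
    · show u.2.1 * 1 * (u.2.1)⁻¹ = 1
      group
    · show u.2.2 * 1 * (u.2.2)⁻¹ = 1
      group
  rwa [h2] at h1

lemma toggle_mem_iff (m : ℕ) : ((toggle (m + 1, 0), 1, 1) : Amb) ∈ PM ↔ ∃ k, R m k = true := by
  constructor
  · intro h
    have h1 := (PM_inv _ h).2 rfl
    by_contra hcon
    have hE : ((m + 1, 0) : ℕ × ℕ) ∉ Eset := by
      rintro (h | h)
      · exact absurd h (Nat.succ_ne_zero m)
      · exact hcon h
    have h2 := (h1 ((m + 1, 0), false) hE).2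
    have h3 : (toggle (m + 1, 0) ((m + 1, 0), false)).2 = true := by
      rw [toggle_apply]; simp
    have h4 : (toggle (m + 1, 0) ((m + 1, 0), false)).2 = false := h2
    rw [h3] at h4
    exact absurd h4 (by simp)
  · rintro ⟨k, hk⟩
    exact toggle_mem _ (reach_halt m k hk)

/-- The test words. -/
def tw (c : ℕ) : List (Fin 8 × Bool) :=
  (5, true) :: (List.replicate c (1, true) ++
    ((0, true) :: (List.replicate c (1, false) ++ [(5, false)])))

lemma wordVal_replicate (c : ℕ) (x : Fin 8 × Bool) :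
    wordVal gen (List.replicate c x) = (if x.2 then gen x.1 else (gen x.1)⁻¹) ^ c := by
  induction c with
  | zero => simp
  | succ c ih => rw [List.replicate_succ, wordVal_cons, ih, pow_succ']

lemma tau_pow (c : ℕ) : (tau ^ c) (0, 0) = (0, 2 * c) := by
  induction c with
  | zero => rfl
  | succ c ih =>
    rw [pow_succ', Equiv.Perm.mul_apply, ih]
    show (0, up (2 * c)) = _
    rw [up, if_pos (by omega)]
    rfl

lemma wordVal_tw (c : ℕ) : wordVal gen (tw c) = ((toggle (2 * c + 1, 0), 1, 1) : Amb) := by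
  have h1 : wordVal gen (tw c) =
      (gen 5 * gen 1 ^ c) * gen 0 * (gen 5 * gen 1 ^ c)⁻¹ := by
    unfold tw
    rw [wordVal_cons, wordVal_append, wordVal_cons, wordVal_append, wordVal_replicate,
      wordVal_replicate, wordVal_cons, wordVal_nil]
    simp only [if_true, Bool.false_eq_true, if_false]
    group
  rw [h1]
  refine Prod.ext ?_ (Prod.ext ?_ ?_)
  · have h2 : (gen 5 * gen 1 ^ c : Amb).1 = lift (mu * tau ^ c) := by
      rw [map_mul, map_pow]; rfl
    show (gen 5 * gen 1 ^ c : Amb).1 * toggle (0, 0) * ((gen 5 * gen 1 ^ c : Amb).1)⁻¹ = _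
    rw [h2, conj_toggle, Equiv.Perm.mul_apply, tau_pow]
    have h3 : mu (0, 2 * c) = (2 * c + 1, 0) := rfl
    rw [h3]
  · show (gen 5 * gen 1 ^ c : Amb).2.1 * 1 * ((gen 5 * gen 1 ^ c : Amb).2.1)⁻¹ = 1
    group
  · show (gen 5 * gen 1 ^ c : Amb).2.2 * 1 * ((gen 5 * gen 1 ^ c : Amb).2.2)⁻¹ = 1
    group

lemma tw_mem_iff (c : ℕ) : wordVal gen (tw c) ∈ PM ↔ ∃ k, R (2 * c) k = true := by
  rw [wordVal_tw, toggle_mem_iff]

end Pool.Agent.Work.MP_91a774_al
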