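import Mathlib
import Pool.Agent.Work.MP_91a774_al.Words

set_option autoImplicit false

namespace Pool.Agent.Work.MP_91a774_al

open Nat.Partrec (Code)

lemma primrec₂_of_finite {A α σ : Type*} [Primcodable A] [Primcodable α] [Primcodable σ] [Finite A]
    (f : A → α → σ) (h : ∀ a, Primrec (f a)) : Primrec₂ f := by
  obtain ⟨n, ⟨e⟩⟩ := Finite.exists_equiv_fin A
  have h1 : Primrec₂ (fun (i : Fin n) (x : α) => f (e.symm i) x) :=
    Primrec.fin_curry₁.2 fun i => h (e.symm i)
  have h2 : Primrec (fun a : A => e a) := Primrec.dom_finite _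
  exact (h1.comp (h2.comp Primrec.fst) Primrec.snd).of_eq fun p => by simp

lemma R_primrec : Primrec fun p : ℕ × ℕ => R p.1 p.2 := by
  have h1 : Primrec fun p : ℕ × ℕ => Denumerable.ofNat Code (p.1 / 2) :=
    (Primrec.ofNat Code).comp (Primrec.nat_div.comp Primrec.fst (Primrec.const 2))
  exact Primrec.option_isSome.comp
    (Nat.Partrec.Code.primrec_evaln.comp ((Primrec.snd.pair h1).pair (Primrec.const 0)))

lemma up_primrec : Primrec up :=
  Primrec.ite (Primrec.eq.comp (Primrec.nat_mod.comp Primrec.id (Primrec.const 2))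
      (Primrec.const 0))
    (Primrec.nat_add.comp Primrec.id (Primrec.const 2))
    (Primrec.ite (Primrec.eq.comp Primrec.id (Primrec.const 1)) (Primrec.const 0)
      (Primrec.nat_sub.comp Primrec.id (Primrec.const 2)))

lemma dn_primrec : Primrec dn :=
  Primrec.ite (Primrec.eq.comp (Primrec.nat_mod.comp Primrec.id (Primrec.const 2))
      (Primrec.const 1))
    (Primrec.nat_add.comp Primrec.id (Primrec.const 2))
    (Primrec.ite (Primrec.eq.comp Primrec.id (Primrec.const 0)) (Primrec.const 1)
      (Primrec.nat_sub.comp Primrec.id (Primrec.const 2)))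

lemma rho_primrec : Primrec rhoF := by
  have hu1 : Primrec fun p : ℕ × ℕ => (Nat.unpair p.2).1 :=
    Primrec.fst.comp (Primrec.unpair.comp Primrec.snd)
  have hu2 : Primrec fun p : ℕ × ℕ => (Nat.unpair p.2).2 :=
    Primrec.snd.comp (Primrec.unpair.comp Primrec.snd)
  have hR1 : PrimrecPred fun p : ℕ × ℕ => R (Nat.unpair p.2).1 (Nat.unpair p.2).2 = true :=
    Primrec.eq.comp (R_primrec.comp (hu1.pair hu2)) (Primrec.const true)
  have hp1 : Primrec fun p : ℕ × ℕ => p.1 - 1 :=
    Primrec.nat_sub.comp Primrec.fst (Primrec.const 1)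
  have hR2 : PrimrecPred fun p : ℕ × ℕ => R (p.1 - 1) p.2 = true :=
    Primrec.eq.comp (R_primrec.comp (hp1.pair Primrec.snd)) (Primrec.const true)
  exact Primrec.ite (Primrec.eq.comp Primrec.fst (Primrec.const 0))
    (Primrec.ite hR1 ((Primrec.succ.comp hu1).pair hu2) Primrec.id)
    (Primrec.ite hR2 ((Primrec.const 0).pair (Primrec₂.natPair.comp hp1 Primrec.snd)) Primrec.id)

lemma mu_primrec : Primrec muF := by
  have hp1 : Primrec fun p : ℕ × ℕ => p.1 - 1 :=
    Primrec.nat_sub.comp Primrec.fst (Primrec.const 1)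
  exact Primrec.ite (Primrec.eq.comp Primrec.fst (Primrec.const 0))
    ((Primrec.succ.comp Primrec.snd).pair (Primrec.const 0))
    (Primrec.ite (Primrec.eq.comp Primrec.snd (Primrec.const 0))
      ((Primrec.const 0).pair hp1) Primrec.id)

lemma lift_primrec (f : ℕ × ℕ → ℕ × ℕ) (hf : Primrec f) :
    Primrec fun p : Pt => ((f p.1, p.2) : Pt) :=
  (hf.comp Primrec.fst).pair Primrec.snd

lemma toggle_primrec (i : ℕ × ℕ) :
    Primrec fun p : Pt => if p.1 = i then ((p.1, !p.2) : Pt) else p :=
  Primrec.ite (Primrec.eq.comp Primrec.fst (Primrec.const i))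
    (Primrec.fst.pair (Primrec.not.comp Primrec.snd)) Primrec.id

lemma tauF_primrec : Primrec fun p : ℕ × ℕ => (p.1, up p.2) :=
  Primrec.fst.pair (up_primrec.comp Primrec.snd)

lemma tauF'_primrec : Primrec fun p : ℕ × ℕ => (p.1, dn p.2) :=
  Primrec.fst.pair (dn_primrec.comp Primrec.snd)

lemma sperm_primrec : Primrec₂ fun (x : Fin 8 × Bool) (p : Pt) => sperm x p := by
  apply primrec₂_of_finite
  rintro ⟨j, b⟩
  cases b <;> fin_cases j
  · exact toggle_primrec (0, 0)
  · exact lift_primrec _ tauF'_primrec
  · exact lift_primrec _ tauF_primrec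
  · exact lift_primrec _ rho_primrec
  · exact lift_primrec _ rho_primrec
  · exact lift_primrec _ mu_primrec
  · exact lift_primrec _ mu_primrec
  · exact Primrec.id
  · exact toggle_primrec (0, 0)
  · exact lift_primrec _ tauF_primrec
  · exact lift_primrec _ tauF'_primrec
  · exact lift_primrec _ rho_primrec
  · exact lift_primrec _ rho_primrec
  · exact lift_primrec _ mu_primrec
  · exact lift_primrec _ mu_primrec
  · exact Primrec.id

lemma weval_primrec : Primrec₂ weval := by
  have h : Primrec₂ fun (_ : List (Fin 8 × Bool) × Pt) (q : (Fin 8 × Bool) × Pt) =>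
      sperm q.1 q.2 :=
    sperm_primrec.comp (Primrec.fst.comp Primrec.snd) (Primrec.snd.comp Primrec.snd)
  exact Primrec.list_foldr Primrec.fst Primrec.snd h

lemma wback_primrec : Primrec₂ wback := by
  have hflip : Primrec fun x : Fin 8 × Bool => (x.1, !x.2) := Primrec.dom_finite _
  have h : Primrec₂ fun (_ : List (Fin 8 × Bool) × Pt) (q : Pt × (Fin 8 × Bool)) =>
      sperm (q.2.1, !q.2.2) q.1 :=
    sperm_primrec.comp (hflip.comp (Primrec.snd.comp Primrec.snd)) (Primrec.fst.comp Primrec.snd)
  exact Primrec.list_foldl Primrec.fst Primrec.snd h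

lemma sumOf_primrec (f : Fin 8 × Bool → ℕ) : Primrec (sumOf f) := by
  have h : Primrec₂ fun (_ : List (Fin 8 × Bool)) (q : (Fin 8 × Bool) × ℕ) => f q.1 + q.2 :=
    Primrec.nat_add.comp ((Primrec.dom_finite f).comp (Primrec.fst.comp Primrec.snd))
      (Primrec.snd.comp Primrec.snd)
  exact Primrec.list_foldr Primrec.id (Primrec.const 0) h

/-- one step of the reduction -/
def rstep (x : Fin 3 × Bool) (s : List (Fin 3 × Bool)) : List (Fin 3 × Bool) :=
  if s.head? = some (x.1, !x.2) then s.tail else x :: s

lemma reduce_eq (w : List (Fin 3 × Bool)) : FreeGroup.reduce w = w.foldr rstep [] := by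
  induction w with
  | nil => rfl
  | cons x w ih =>
    rw [FreeGroup.reduce.cons, ih, List.foldr_cons]
    cases hs : w.foldr rstep [] with
    | nil => simp [rstep]
    | cons hd tl =>
      obtain ⟨a, b⟩ := x
      obtain ⟨c, d⟩ := hd
      simp only [rstep, List.head?_cons, List.tail_cons, Option.some.injEq, Prod.mk.injEq]
      by_cases h : a = c ∧ b = !d
      · obtain ⟨rfl, rfl⟩ := h
        simp
      · rw [if_neg h, if_neg]
        rintro ⟨rfl, rfl⟩
        apply h
        simp

lemma reduce_primrec : Primrec (fun w : List (Fin 3 × Bool) => FreeGroup.reduce w) := by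
  have hflip : Primrec fun x : Fin 3 × Bool => some (x.1, !x.2) := Primrec.dom_finite _
  have hx : Primrec fun a : List (Fin 3 × Bool) × ((Fin 3 × Bool) × List (Fin 3 × Bool)) =>
      a.2.1 := Primrec.fst.comp Primrec.snd
  have hs : Primrec fun a : List (Fin 3 × Bool) × ((Fin 3 × Bool) × List (Fin 3 × Bool)) =>
      a.2.2 := Primrec.snd.comp Primrec.snd
  have h : Primrec₂ fun (_ : List (Fin 3 × Bool)) (q : (Fin 3 × Bool) × List (Fin 3 × Bool)) =>
      rstep q.1 q.2 :=
    Primrec.ite (Primrec.eq.comp (Primrec.list_head?.comp hs) (hflip.comp hx))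
      (Primrec.list_tail.comp hs) (Primrec.list_cons.comp hx hs)
  exact (Primrec.list_foldr Primrec.id (Primrec.const []) h).of_eq fun w => (reduce_eq w).symm

lemma test_primrec : PrimrecPred test := by
  have h1 : PrimrecPred fun w : List (Fin 8 × Bool) => FreeGroup.reduce (w.flatMap flet) = [] := by
    have hfm : Primrec fun w : List (Fin 8 × Bool) => w.flatMap flet := by
      have hf : Primrec₂ fun (_ : List (Fin 8 × Bool)) (x : Fin 8 × Bool) => flet x :=
        (Primrec.dom_finite flet).comp Primrec.snd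
      exact Primrec.list_flatMap Primrec.id hf
    exact Primrec.eq.comp (reduce_primrec.comp hfm) (Primrec.const [])
  have h2 : PrimrecPred fun w : List (Fin 8 × Bool) => sumOf pd w = sumOf nd w :=
    Primrec.eq.comp (sumOf_primrec pd) (sumOf_primrec nd)
  have hb : ∀ c : Pt, Primrec fun a : ℕ × List (Fin 8 × Bool) => wback (a.2.drop a.1) c := by
    intro c
    exact wback_primrec.comp (Primrec.list_drop.comp Primrec.fst Primrec.snd) (Primrec.const c)
  have hc : ∀ c : Pt, PrimrecPred fun a : ℕ × List (Fin 8 × Bool) =>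
      weval a.2 (wback (a.2.drop a.1) c) = wback (a.2.drop a.1) c := by
    intro c
    exact Primrec.eq.comp (weval_primrec.comp Primrec.snd (hb c)) (hb c)
  have h3 : PrimrecRel fun (n : ℕ) (w : List (Fin 8 × Bool)) =>
      (weval w (wback (w.drop n) ((0, 0), false)) =
      wback (w.drop n) ((0, 0), false) ∧ weval w (wback (w.drop n) ((0, 0), true)) =
      wback (w.drop n) ((0, 0), true)) :=
    ((hc ((0, 0), false)).and (hc ((0, 0), true)))
  have hlen : Primrec fun w : List (Fin 8 × Bool) => w.length + 1 :=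
    Primrec.succ.comp Primrec.list_length
  have hid : Primrec fun w : List (Fin 8 × Bool) => w := Primrec.id
  have h4 := h3.forall_mem_list.comp (Primrec.list_range.comp hlen) hid
  refine (h1.and (h2.and h4)).of_eq fun w => ?_
  unfold test
  simp only [List.mem_range]

lemma tw_primrec : Primrec tw := by
  have hrep : ∀ x : Fin 8 × Bool, Primrec fun c : ℕ => List.replicate c x := by
    intro x
    have h : Primrec₂ fun (_ : ℕ) (s : List (Fin 8 × Bool)) => x :: s :=
      Primrec.list_cons.comp (Primrec.const x) Primrec.snd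
    refine (Primrec.nat_iterate (f := fun c : ℕ => c)
      (g := fun _ : ℕ => ([] : List (Fin 8 × Bool))) Primrec.id
      (Primrec.const []) h).of_eq ?_
    intro c
    induction c with
    | zero => rfl
    | succ c ih => rw [Function.iterate_succ_apply', ih, List.replicate_succ]
  exact Primrec.list_cons.comp (Primrec.const _)
    (Primrec.list_append.comp (hrep _) (Primrec.list_cons.comp (Primrec.const _)
      (Primrec.list_append.comp (hrep _) (Primrec.const _))))

lemma wp_computable : ComputablePred fun w : List (Fin 8 × Bool) => wordVal gen w = 1 :=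
  test_primrec.computablePred.of_eq fun w => (wordVal_eq_one_iff w).symm

lemma membership_not_computable :
    ¬ ComputablePred fun w : List (Fin 8 × Bool) => wordVal gen w ∈ PM := by
  intro h
  apply ComputablePred.halting_problem 0
  have hcomp : Computable fun c : Code => tw (Encodable.encode c) :=
    tw_primrec.to_comp.comp (Primrec.encode (α := Code)).to_comp
  obtain ⟨hd, hc⟩ := h
  have h2 : ComputablePred fun c : Code => wordVal gen (tw (Encodable.encode c)) ∈ PM :=
    ⟨fun c => hd _, hc.comp hcomp⟩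
  refine h2.of_eq fun c => ?_
  rw [tw_mem_iff, Part.dom_iff_mem]
  have hR : ∀ k, R (2 * Encodable.encode c) k = true ↔ ∃ x, x ∈ Nat.Partrec.Code.evaln k c 0 := by
    intro k
    unfold R
    rw [Nat.mul_div_cancel_left _ (by norm_num), Denumerable.ofNat_encode, Option.isSome_iff_exists]
    rfl
  simp only [hR]
  constructor
  · rintro ⟨k, x, hx⟩
    exact ⟨x, Nat.Partrec.Code.evaln_sound hx⟩
  · rintro ⟨x, hx⟩
    obtain ⟨k, hk⟩ := Nat.Partrec.Code.evaln_complete.1 hx
    exact ⟨k, x, hk⟩

end Pool.Agent.Work.MP_91a774_al
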